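import Pool.Agent.VTP.StmtsT
import Pool.Agent.Helper25_ZOL.Deg

/-!
# Squad VTP, row EDG
-/

set_option autoImplicit false

namespace Pool.Agent.VTP.H68

open Finset Pool.Agent.ZOL Pool.Agent.VTP

theorem deg_congr {m : ℕ} {h g : Finset ℕ → ℤ} (hh : Deg m h) (hg : ∀ B, g B = h B) : Deg m g := by
  have : g = h := funext hg
  rw [this]
  exact hh

theorem deg_sum {ι : Type} (s : Finset ι) (m : ℕ) (h : ι → Finset ℕ → ℤ)
    (hh : ∀ i ∈ s, Deg m (h i)) : Deg m (fun B => ∑ i ∈ s, h i B) := by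
  intro A hA
  have h1 : ∑ B ∈ A.powerset, (-1 : ℤ) ^ B.card * ∑ i ∈ s, h i B =
      ∑ i ∈ s, ∑ B ∈ A.powerset, (-1 : ℤ) ^ B.card * h i B := by
    rw [sum_comm]
    apply sum_congr rfl
    intro B _
    rw [mul_sum]
  rw [h1]
  exact sum_eq_zero fun i hi => hh i hi A hA

theorem deg_neg {m : ℕ} {h : Finset ℕ → ℤ} (hh : Deg m h) : Deg m (fun B => -h B) := by
  have h1 := Pool.Agent.ZOL.H25.deg_sub (Pool.Agent.ZOL.H25.deg_const m 0) hh
  exact deg_congr h1 fun B => by ring

/-- good families of series -/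
def Good (h : Finset ℕ → PowerSeries ℤ) : Prop := ∀ k, Deg k (fun B => PowerSeries.coeff k (h B))

theorem good_mul {h g : Finset ℕ → PowerSeries ℤ} (hh : Good h) (hg : Good g) :
    Good (fun B => h B * g B) := by
  intro k
  have h1 : Deg k (fun B => ∑ p ∈ antidiagonal k,
      PowerSeries.coeff p.1 (h B) * PowerSeries.coeff p.2 (g B)) := by
    apply deg_sum
    intro p hp
    have h2 := Pool.Agent.ZOL.H25.deg1 _ _ _ _ (hh p.1) (hg p.2)
    rw [HasAntidiagonal.mem_antidiagonal] at hp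
    rw [hp] at h2
    exact h2
  exact deg_congr h1 fun B => by rw [PowerSeries.coeff_mul]

theorem good_bx (m : ℕ) (e : Finset ℕ → ℤ) (he : Deg m e) :
    Good (fun B => bx m (-(e B))) := by
  intro k
  by_cases hk : m ∣ k
  · have h1 := Pool.Agent.ZOL.H25.deg2 _ m (k / m) (deg_neg he)
    rw [Nat.mul_div_cancel' hk] at h1
    refine deg_congr h1 fun B => ?_
    unfold bx
    rw [PowerSeries.coeff_mk, if_pos hk]
  · refine deg_congr (Pool.Agent.ZOL.H25.deg_const k 0) fun B => ?_
    unfold bx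
    rw [PowerSeries.coeff_mk, if_neg hk]

theorem good_st (h : Finset ℕ → PowerSeries ℤ) (hh : Good h) (m : ℕ) :
    Good (fun B => st m (h B)) := by
  induction m with
  | zero => exact hh
  | succ m ih => exact good_mul ih (good_bx (m + 1) _ (ih (m + 1)))

theorem edg : EdgStmt := by
  intro h hh m _
  exact good_st h hh (m - 1) m

end Pool.Agent.VTP.H68
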