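import Pool.Agent.VTP.StmtsG

/-!
# Squad VTP, row HSN
-/

set_option autoImplicit false

namespace Pool.Agent.VTP.H68

open Finset Pool.Agent.ZOL Pool.Agent.VTP

variable {Z : Type} [AddCommGroup Z]

/-- the elements killed by the derivations of degree at most `N` -/
def AN (A : ℕ → AddSubgroup Z) (Θ : ℕ → ℕ → Z →+ Z) (N k : ℕ) : AddSubgroup Z where
  carrier := {x | x ∈ A k ∧ ∀ m, 2 ≤ m → m ≤ N → ∀ n, 1 ≤ n → Θ m n x = 0}
  add_mem' := by
    rintro a b ⟨ha, ha'⟩ ⟨hb, hb'⟩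
    exact ⟨add_mem ha hb, fun m hm hmN n hn => by
      rw [map_add, ha' m hm hmN n hn, hb' m hm hmN n hn, add_zero]⟩
  zero_mem' := ⟨zero_mem _, fun m _ _ n _ => map_zero _⟩
  neg_mem' := by
    rintro a ⟨ha, ha'⟩
    exact ⟨neg_mem ha, fun m hm hmN n hn => by rw [map_neg, ha' m hm hmN n hn, neg_zero]⟩

theorem mem_AN {A : ℕ → AddSubgroup Z} {Θ : ℕ → ℕ → Z →+ Z} {N k : ℕ} {x : Z} :
    x ∈ AN A Θ N k ↔ x ∈ A k ∧ ∀ m, 2 ≤ m → m ≤ N → ∀ n, 1 ≤ n → Θ m n x = 0 := Iff.rfl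

theorem AN_congr {A : ℕ → AddSubgroup Z} {Θ : ℕ → ℕ → Z →+ Z} {N k k' : ℕ} {x : Z}
    (hx : x ∈ AN A Θ N k) (h : k = k') : x ∈ AN A Θ N k' := by
  subst h
  exact hx

theorem AN_mono {A : ℕ → AddSubgroup Z} {Θ : ℕ → ℕ → Z →+ Z} {N N' k : ℕ} {x : Z}
    (h : N ≤ N') (hx : x ∈ AN A Θ N' k) : x ∈ AN A Θ N k :=
  ⟨hx.1, fun m hm hmN n hn => hx.2 m hm (hmN.trans h) n hn⟩

theorem AN_I {A : ℕ → AddSubgroup Z} {I : ℕ → Z →+ Z} {Θ : ℕ → ℕ → Z →+ Z}
    (hf : Fam Z A I Θ) (N k : ℕ) (x : Z) (hx : x ∈ AN A Θ (N + 1) k) :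
    I (N + 2) x ∈ AN A Θ (N + 1) (k + (N + 2)) := by
  refine ⟨hf.hI (N + 2) (by omega) k x hx.1, ?_⟩
  intro m hm hmN n hn
  obtain ⟨n', rfl⟩ : ∃ n', n = n' + 1 := ⟨n - 1, by omega⟩
  rw [hf.hrel (N + 2) m (by omega) hm n' k x hx.1, hx.2 m hm hmN (n' + 1) hn, map_zero,
    if_neg (by omega), add_zero]

theorem AN_T {A : ℕ → AddSubgroup Z} {I : ℕ → Z →+ Z} {Θ : ℕ → ℕ → Z →+ Z}
    (hf : Fam Z A I Θ) (N n k : ℕ) (hk : (N + 2) * n ≤ k) (x : Z) (hx : x ∈ AN A Θ (N + 1) k) :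
    Θ (N + 2) n x ∈ AN A Θ (N + 1) (k - (N + 2) * n) := by
  refine ⟨hf.hT (N + 2) (by omega) n k hk x hx.1, ?_⟩
  intro m hm hmN n' hn'
  rw [hf.hcomm m (N + 2) hm (by omega) n' n k x hx.1, hx.2 m hm hmN n' hn', map_zero]

theorem AN_iter {A : ℕ → AddSubgroup Z} {I : ℕ → Z →+ Z} {Θ : ℕ → ℕ → Z →+ Z}
    (hf : Fam Z A I Θ) (N i k : ℕ) (x : Z) (hx : x ∈ AN A Θ (N + 1) k) :
    (I (N + 2))^[i] x ∈ AN A Θ (N + 1) (k + (N + 2) * i) := by
  induction i with
  | zero => exact hx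
  | succ i ih =>
    rw [Function.iterate_succ_apply']
    exact AN_congr (AN_I hf N _ _ ih) (by ring)

/-- the step -/
theorem step_equiv (hs1 : Hs1Stmt) {A : ℕ → AddSubgroup Z} {I : ℕ → Z →+ Z}
    {Θ : ℕ → ℕ → Z →+ Z} (hf : Fam Z A I Θ) (N k : ℕ) :
    Nonempty (AN A Θ (N + 1) k ≃+
      ((i : Fin (k / (N + 2) + 1)) → AN A Θ (N + 2) (k - (N + 2) * i))) := by
  have hile : ∀ i : ℕ, i < k / (N + 2) + 1 ↔ (N + 2) * i ≤ k := by
    intro i
    rw [Nat.lt_succ_iff, Nat.le_div_iff_mul_le (by omega), mul_comm]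
  obtain ⟨hsur, hinj⟩ := hs1 Z (AN A Θ (N + 1)) (I (N + 2)) (Θ (N + 2)) (N + 2) (by omega)
    (fun k x hx => AN_I hf N k x hx)
    (fun n k hk x hx => AN_T hf N n k hk x hx)
    (fun n k hk x hx => hf.hT0 (N + 2) (by omega) n k hk x hx.1)
    (fun k x hx => hf.h0 (N + 2) (by omega) k x hx.1)
    (fun a b k x hx => hf.hit (N + 2) (by omega) a b k x hx.1)
    (fun n k x hx => by
      rw [hf.hrel (N + 2) (N + 2) (by omega) (by omega) n k x hx.1, if_pos rfl]) k
  have hup : ∀ (j : ℕ) (y : Z), y ∈ AN A Θ (N + 1) j → (∀ n, 1 ≤ n → Θ (N + 2) n y = 0) →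
      y ∈ AN A Θ (N + 2) j := by
    intro j y hy hy'
    refine ⟨hy.1, fun m hm hmN n hn => ?_⟩
    rcases Nat.lt_or_ge m (N + 2) with h | h
    · exact hy.2 m hm (by omega) n hn
    · have : m = N + 2 := by omega
      rw [this]
      exact hy' n hn
  let Φ : ((i : Fin (k / (N + 2) + 1)) → AN A Θ (N + 2) (k - (N + 2) * i)) →+
      AN A Θ (N + 1) k :=
    { toFun := fun y => ⟨∑ i : Fin (k / (N + 2) + 1), (I (N + 2))^[(i : ℕ)] (y i : Z), by
        apply sum_mem
        intro i _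
        have h1 := AN_iter hf N i _ _ (AN_mono (Nat.le_succ (N + 1)) (y i).2)
        have h2 := (hile i).mp i.2
        exact AN_congr h1 (by omega)⟩
      map_zero' := by
        apply Subtype.ext
        show ∑ i : Fin (k / (N + 2) + 1), (I (N + 2))^[(i : ℕ)] (0 : Z) = 0
        apply sum_eq_zero
        intro i _
        exact iterate_map_zero _ _
      map_add' := by
        intro y y'
        apply Subtype.ext
        show ∑ i : Fin (k / (N + 2) + 1), (I (N + 2))^[(i : ℕ)] ((y i : Z) + (y' i : Z)) = _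
        have hadd : ∀ i : Fin (k / (N + 2) + 1),
            (I (N + 2))^[(i : ℕ)] ((y i : Z) + (y' i : Z)) =
              (I (N + 2))^[(i : ℕ)] (y i : Z) + (I (N + 2))^[(i : ℕ)] (y' i : Z) :=
          fun i => iterate_map_add (I (N + 2)) (i : ℕ) _ _
        rw [sum_congr rfl fun i _ => hadd i, sum_add_distrib]
        rfl }
  have hΦ : ∀ y, ((Φ y : AN A Θ (N + 1) k) : Z) =
      ∑ i : Fin (k / (N + 2) + 1), (I (N + 2))^[(i : ℕ)] (y i : Z) := fun y => rfl
  have hΦi : Function.Injective Φ := by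
    rw [injective_iff_map_eq_zero]
    intro y hy
    have h1 : ∑ i : Fin (k / (N + 2) + 1), (I (N + 2))^[(i : ℕ)] (y i : Z) = 0 := by
      rw [← hΦ, hy]
      rfl
    have h2 := hinj (fun i => if h : i < k / (N + 2) + 1 then (y ⟨i, h⟩ : Z) else 0) (by
      intro i hi
      have h := (hile i).mpr hi
      simp only [h, dif_pos]
      exact ⟨AN_mono (Nat.le_succ (N + 1)) (y ⟨i, h⟩).2,
        fun n hn => (y ⟨i, h⟩).2.2 (N + 2) (by omega) le_rfl n hn⟩) (by
      rw [sum_range]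
      rw [← h1]
      apply sum_congr rfl
      intro i _
      simp only [i.2, dif_pos])
    funext i
    apply Subtype.ext
    have h3 := h2 i ((hile i).mp i.2)
    simp only [i.2, dif_pos] at h3
    exact h3
  have hΦs : Function.Surjective Φ := by
    intro x
    obtain ⟨y, hy, hx⟩ := hsur x.1 x.2
    refine ⟨fun i => ⟨y i, ?_⟩, ?_⟩
    · have h1 := hy i ((hile i).mp i.2)
      exact hup _ _ h1.1 h1.2
    · apply Subtype.ext
      rw [hΦ, hx, sum_range]
  exact ⟨(AddEquiv.ofBijective Φ ⟨hΦi, hΦs⟩).symm⟩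

/-- multisets with elements in `[2, N]` and sum at most `d` -/
abbrev MSN (N d : ℕ) : Type := {s : Multiset ℕ // (∀ x ∈ s, 2 ≤ x ∧ x ≤ N) ∧ s.sum ≤ d}

theorem sum_split (s : Multiset ℕ) (N : ℕ) :
    (s.filter (fun x => x ≠ N)).sum + N * s.count N = s.sum := by
  have h1 : s.filter (fun x => x = N) + s.filter (fun x => ¬ x = N) = s :=
    Multiset.filter_add_not (fun x => x = N) s
  have h2 : s.filter (fun x => x = N) = Multiset.replicate (s.count N) N :=
    Multiset.filter_eq' s N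
  have h3 := congrArg Multiset.sum h1
  rw [Multiset.sum_add, h2, Multiset.sum_replicate, smul_eq_mul] at h3
  rw [← h3]
  ring

theorem filter_add_rep (s : Multiset ℕ) (N i : ℕ) (hs : N ∉ s) :
    (s + Multiset.replicate i N).filter (fun x => x ≠ N) = s := by
  rw [Multiset.filter_add]
  have h1 : (Multiset.replicate i N).filter (fun x => x ≠ N) = 0 := by
    rw [Multiset.filter_eq_nil]
    intro a ha hne
    exact hne (Multiset.eq_of_mem_replicate ha)
  have h2 : s.filter (fun x => x ≠ N) = s := by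
    rw [Multiset.filter_eq_self]
    intro a ha hne
    rw [hne] at ha
    exact hs ha
  rw [h1, h2, add_zero]

theorem count_add_rep (s : Multiset ℕ) (N i : ℕ) (hs : N ∉ s) :
    (s + Multiset.replicate i N).count N = i := by
  rw [Multiset.count_add, Multiset.count_eq_zero_of_notMem hs, Multiset.count_replicate_self,
    zero_add]

theorem filter_add_count (s : Multiset ℕ) (N : ℕ) :
    s.filter (fun x => x ≠ N) + Multiset.replicate (s.count N) N = s := by
  have h1 : s.filter (fun x => x = N) + s.filter (fun x => ¬ x = N) = s :=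
    Multiset.filter_add_not (fun x => x = N) s
  have h2 : s.filter (fun x => x = N) = Multiset.replicate (s.count N) N :=
    Multiset.filter_eq' s N
  rw [h2, add_comm] at h1
  exact h1

/-- splitting a multiset in `[2, N + 2]` -/
def dn {N d : ℕ} (s : MSN (N + 2) d) : MSN (N + 1) d :=
  ⟨s.1.filter (fun x => x ≠ N + 2), fun x hx => by
    have h1 := Multiset.mem_filter.mp hx
    have h2 := s.2.1 x h1.1
    have h3 := h1.2
    exact ⟨h2.1, by omega⟩, by
    have h1 := sum_split s.1 (N + 2)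
    have h2 := s.2.2
    omega⟩

def ct {N d : ℕ} (s : MSN (N + 2) d) : Fin ((d - (dn s).1.sum) / (N + 2) + 1) :=
  ⟨s.1.count (N + 2), by
    rw [Nat.lt_succ_iff, Nat.le_div_iff_mul_le (by omega)]
    have h1 := sum_split s.1 (N + 2)
    have h2 := s.2.2
    have h3 : (dn s).1.sum = (s.1.filter (fun x => x ≠ N + 2)).sum := rfl
    rw [h3, mul_comm]
    omega⟩

def up {N d : ℕ} (s : MSN (N + 1) d) (i : Fin ((d - s.1.sum) / (N + 2) + 1)) : MSN (N + 2) d :=
  ⟨s.1 + Multiset.replicate i (N + 2), fun x hx => by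
    rcases Multiset.mem_add.mp hx with h | h
    · have h2 := s.2.1 x h
      exact ⟨h2.1, by omega⟩
    · rw [Multiset.eq_of_mem_replicate h]
      exact ⟨by omega, le_rfl⟩, by
    rw [Multiset.sum_add, Multiset.sum_replicate, smul_eq_mul]
    have h1 := i.2
    rw [Nat.lt_succ_iff, Nat.le_div_iff_mul_le (by omega)] at h1
    have h2 := s.2.2
    omega⟩

/-- reindexing -/
theorem reindex (A : ℕ → AddSubgroup Z) (Θ : ℕ → ℕ → Z →+ Z) (N d : ℕ) :
    Nonempty (((s : MSN (N + 1) d) → (i : Fin ((d - s.1.sum) / (N + 2) + 1)) →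
        AN A Θ (N + 2) (d - s.1.sum - (N + 2) * i)) ≃+
      ((s : MSN (N + 2) d) → AN A Θ (N + 2) (d - s.1.sum))) := by
  have hnot : ∀ s : MSN (N + 1) d, N + 2 ∉ s.1 := by
    intro s hs
    have := (s.2.1 _ hs).2
    omega
  have hval : ∀ (f : (s : MSN (N + 1) d) → (i : Fin ((d - s.1.sum) / (N + 2) + 1)) →
        AN A Θ (N + 2) (d - s.1.sum - (N + 2) * i)) (s₁ s₂ : MSN (N + 1) d) (_ : s₁ = s₂)
        (i₁ : Fin ((d - s₁.1.sum) / (N + 2) + 1)) (i₂ : Fin ((d - s₂.1.sum) / (N + 2) + 1)),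
        (i₁ : ℕ) = i₂ → (f s₁ i₁ : Z) = (f s₂ i₂ : Z) := by
    intro f s₁ s₂ h i₁ i₂ hi
    subst h
    have : i₁ = i₂ := Fin.ext hi
    subst this
    rfl
  have hval' : ∀ (g : (s : MSN (N + 2) d) → AN A Θ (N + 2) (d - s.1.sum))
      (s₁ s₂ : MSN (N + 2) d) (_ : s₁ = s₂), (g s₁ : Z) = (g s₂ : Z) := by
    intro g s₁ s₂ h
    subst h
    rfl
  refine ⟨
    { toFun := fun f s => ⟨(f (dn s) (ct s) : Z), ?_⟩
      invFun := fun g s i => ⟨(g (up s i) : Z), ?_⟩
      left_inv := ?_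
      right_inv := ?_
      map_add' := ?_ }⟩
  · refine AN_congr (f (dn s) (ct s)).2 ?_
    have h1 := sum_split s.1 (N + 2)
    have h3 : (dn s).1.sum = (s.1.filter (fun x => x ≠ N + 2)).sum := rfl
    have h4 : ((ct s : Fin _) : ℕ) = s.1.count (N + 2) := rfl
    rw [h4]
    have h5 : d - (dn s).1.sum = d - (s.1.filter (fun x => x ≠ N + 2)).sum := by rw [h3]
    have h6 : (N + 2) * s.1.count (N + 2) = s.1.count (N + 2) * (N + 2) := mul_comm _ _
    omega
  · refine AN_congr (g (up s i)).2 ?_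
    have h1 : (up s i).1.sum = s.1.sum + i * (N + 2) := by
      show (s.1 + Multiset.replicate i (N + 2)).sum = _
      rw [Multiset.sum_add, Multiset.sum_replicate, smul_eq_mul]
    rw [h1, Nat.sub_sub, mul_comm (N + 2) (i : ℕ)]
  · intro f
    funext s i
    apply Subtype.ext
    refine hval f _ _ ?_ _ _ ?_
    · apply Subtype.ext
      exact filter_add_rep s.1 (N + 2) i (hnot s)
    · exact count_add_rep s.1 (N + 2) i (hnot s)
  · intro g
    funext s
    apply Subtype.ext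
    refine hval' g _ _ ?_
    apply Subtype.ext
    exact filter_add_count s.1 (N + 2)
  · intro f f'
    rfl

theorem all_equiv (hs1 : Hs1Stmt) {A : ℕ → AddSubgroup Z} {I : ℕ → Z →+ Z}
    {Θ : ℕ → ℕ → Z →+ Z} (hf : Fam Z A I Θ) (d N : ℕ) :
    Nonempty (AN A Θ 1 d ≃+ ((s : MSN (N + 1) d) → AN A Θ (N + 1) (d - s.1.sum))) := by
  induction N with
  | zero =>
    have hz : ∀ s : MSN (0 + 1) d, s.1 = 0 := by
      intro s
      apply Multiset.eq_zero_of_forall_notMem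
      intro x hx
      have := s.2.1 x hx
      omega
    have hsub : ∀ s₁ s₂ : MSN (0 + 1) d, s₁ = s₂ := by
      intro s₁ s₂
      apply Subtype.ext
      rw [hz s₁, hz s₂]
    have s₀ : MSN (0 + 1) d := ⟨0, fun x hx => absurd hx (Multiset.notMem_zero x), by simp⟩
    have hval : ∀ (g : (s : MSN (0 + 1) d) → AN A Θ (0 + 1) (d - s.1.sum))
        (s₁ s₂ : MSN (0 + 1) d), (g s₁ : Z) = (g s₂ : Z) := by
      intro g s₁ s₂
      have h := hsub s₁ s₂
      subst h
      rfl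
    refine ⟨
      { toFun := fun x s => ⟨(x : Z), ?_⟩
        invFun := fun g => ⟨(g s₀ : Z), ?_⟩
        left_inv := ?_
        right_inv := ?_
        map_add' := ?_ }⟩
    · refine AN_congr x.2 ?_
      rw [hz s]
      simp
    · refine AN_congr (g s₀).2 ?_
      rw [hz s₀]
      simp
    · intro x
      rfl
    · intro g
      funext s
      apply Subtype.ext
      exact hval g _ _
    · intro x y
      rfl
  | succ N ih =>
    obtain ⟨e⟩ := ih
    have h1 : ∀ s : MSN (N + 1) d, Nonempty (AN A Θ (N + 1) (d - s.1.sum) ≃+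
        ((i : Fin ((d - s.1.sum) / (N + 2) + 1)) →
          AN A Θ (N + 2) (d - s.1.sum - (N + 2) * i))) := fun s => step_equiv hs1 hf N _
    obtain ⟨e'⟩ := reindex A Θ N d
    exact ⟨(e.trans (AddEquiv.piCongrRight fun s => (h1 s).some)).trans e'⟩

theorem hsn (hs1 : Hs1Stmt) : HsnStmt := by
  intro Z _ A I Θ hf d
  obtain ⟨e⟩ := all_equiv hs1 hf d d
  have hA : ∀ x : Z, x ∈ A d ↔ x ∈ AN A Θ 1 d := by
    intro x
    refine ⟨fun hx => ⟨hx, fun m hm hm1 => ?_⟩, fun hx => hx.1⟩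
    omega
  have hB : ∀ (k : ℕ) (x : Z), k ≤ d → (x ∈ AN A Θ (d + 1) k ↔ x ∈ BB A Θ k) := by
    intro k x hk
    constructor
    · intro hx
      refine ⟨hx.1, fun m hm n hn => ?_⟩
      rcases Nat.lt_or_ge m (d + 2) with h | h
      · exact hx.2 m hm (by omega) n hn
      · apply hf.hT0 m hm n k _ x hx.1
        calc k < m := by omega
          _ = m * 1 := (mul_one m).symm
          _ ≤ m * n := Nat.mul_le_mul_left m hn
    · intro hx
      exact ⟨hx.1, fun m hm _ n hn => hx.2 m hm n hn⟩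
  have hS : ∀ s : MS d, ∀ x ∈ s.1, 2 ≤ x ∧ x ≤ d + 1 := by
    intro s x hx
    refine ⟨s.2.1 x hx, ?_⟩
    have h1 := Multiset.single_le_sum (fun y _ => Nat.zero_le y) x hx
    have h2 := s.2.2
    omega
  let e1 : A d ≃+ AN A Θ 1 d :=
    { toFun := fun x => ⟨x.1, (hA x.1).mp x.2⟩
      invFun := fun x => ⟨x.1, (hA x.1).mpr x.2⟩
      left_inv := fun x => rfl
      right_inv := fun x => rfl
      map_add' := fun x y => rfl }
  let e2 : ((s : MSN (d + 1) d) → AN A Θ (d + 1) (d - s.1.sum)) ≃+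
      ((s : MS d) → BB A Θ (d - s.1.sum)) :=
    { toFun := fun f s => ⟨(f ⟨s.1, hS s, s.2.2⟩).1,
        (hB _ _ (Nat.sub_le _ _)).mp (f ⟨s.1, hS s, s.2.2⟩).2⟩
      invFun := fun g s => ⟨(g ⟨s.1, fun x hx => (s.2.1 x hx).1, s.2.2⟩).1,
        (hB _ _ (Nat.sub_le _ _)).mpr (g ⟨s.1, fun x hx => (s.2.1 x hx).1, s.2.2⟩).2⟩
      left_inv := fun f => rfl
      right_inv := fun g => rfl
      map_add' := fun f f' => rfl }
  exact ⟨(e1.trans e).trans e2⟩

end Pool.Agent.VTP.H68
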